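import Pool.Agent.Helper6.ER.Defs
import Pool.Agent.Helper10.LargeSieve

/-!
# ER-1: primitive characters and additive frequencies
-/

namespace Pool.Agent.Helper6.ER

open Finset ComplexConjugate

/-- Parseval for additive characters modulo `f` -/
theorem add_parseval (f : ℕ) [NeZero f] (x : ZMod f → ℂ) :
    ∑ k : ZMod f, ‖∑ b : ZMod f, x b * ZMod.stdAddChar (k * b)‖ ^ 2 = f * ∑ b, ‖x b‖ ^ 2 := by
  have key : ∑ k : ZMod f, (∑ b : ZMod f, x b * ZMod.stdAddChar (k * b)) *
      conj (∑ b : ZMod f, x b * ZMod.stdAddChar (k * b)) = (f : ℂ) * ∑ b, x b * conj (x b) := by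
    calc ∑ k : ZMod f, (∑ b : ZMod f, x b * ZMod.stdAddChar (k * b)) *
          conj (∑ b : ZMod f, x b * ZMod.stdAddChar (k * b))
        = ∑ k : ZMod f, ∑ b : ZMod f, ∑ b' : ZMod f,
            (x b * conj (x b')) * ZMod.stdAddChar (k * (b - b')) := by
          refine Finset.sum_congr rfl fun k _ => ?_
          rw [map_sum, Finset.sum_mul_sum]
          refine Finset.sum_congr rfl fun b _ => Finset.sum_congr rfl fun b' _ => ?_
          rw [RingHom.map_mul, ← AddChar.map_neg_eq_conj, mul_sub, sub_eq_add_neg,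
            AddChar.map_add_eq_mul]
          ring
      _ = ∑ b : ZMod f, ∑ b' : ZMod f, (x b * conj (x b')) *
            ∑ k : ZMod f, ZMod.stdAddChar (k * (b - b')) := by
          rw [Finset.sum_comm]
          refine Finset.sum_congr rfl fun b _ => ?_
          rw [Finset.sum_comm]
          refine Finset.sum_congr rfl fun b' _ => ?_
          rw [Finset.mul_sum]
      _ = (f : ℂ) * ∑ b, x b * conj (x b) := by
          rw [Finset.mul_sum]
          refine Finset.sum_congr rfl fun b _ => ?_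
          rw [Finset.sum_eq_single b]
          · rw [AddChar.sum_mulShift _ (ZMod.isPrimitive_stdAddChar f), if_pos (sub_self b),
              ZMod.card]
            ring
          · intro b' _ hb'
            rw [AddChar.sum_mulShift _ (ZMod.isPrimitive_stdAddChar f),
              if_neg (sub_ne_zero.2 hb'.symm)]
            simp
          · intro h
            exact absurd (Finset.mem_univ _) h
  have e1 : ∀ z : ℂ, z * conj z = ((‖z‖ ^ 2 : ℝ) : ℂ) := by
    intro z
    rw [Complex.mul_conj']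
    push_cast
    rfl
  simp only [e1] at key
  exact_mod_cast key

theorem norm_inv_char {f : ℕ} (ψ : DirichletCharacter ℂ f) (b : ZMod f) :
    ‖ψ⁻¹ b‖ = ‖ψ b‖ := by
  rw [← MulChar.star_apply']
  exact norm_star _

theorem star_char_unit {f : ℕ} [NeZero f] (χ : DirichletCharacter ℂ f) {a : ZMod f}
    (ha : IsUnit a) : conj (χ a) = χ a⁻¹ := by
  have h1 := MulChar.star_apply' χ a
  rw [← starRingEnd_apply] at h1
  rw [h1]
  obtain ⟨u, rfl⟩ := ha
  rw [MulChar.inv_apply, Ring.inverse_unit, ZMod.inv_coe_unit]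

/-- orthogonality of Dirichlet characters, mean square form -/
theorem mul_parseval (f : ℕ) [NeZero f] (S : ZMod f → ℂ) :
    ∑ χ : DirichletCharacter ℂ f, ‖∑ b : ZMod f, χ b * S b‖ ^ 2 =
      f.totient * ∑ b : ZMod f, if IsUnit b then ‖S b‖ ^ 2 else 0 := by
  classical
  have key : ∑ χ : DirichletCharacter ℂ f, (∑ b : ZMod f, χ b * S b) *
      conj (∑ b : ZMod f, χ b * S b) =
      (f.totient : ℂ) * ∑ b : ZMod f, if IsUnit b then S b * conj (S b) else 0 := by
    calc ∑ χ : DirichletCharacter ℂ f, (∑ b : ZMod f, χ b * S b) *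
          conj (∑ b : ZMod f, χ b * S b)
        = ∑ χ : DirichletCharacter ℂ f, ∑ b : ZMod f, ∑ b' : ZMod f,
            (S b' * conj (S b)) * (conj (χ b) * χ b') := by
          refine Finset.sum_congr rfl fun χ _ => ?_
          rw [map_sum, Finset.sum_mul_sum, Finset.sum_comm]
          refine Finset.sum_congr rfl fun b _ => Finset.sum_congr rfl fun b' _ => ?_
          rw [map_mul]
          ring
      _ = ∑ b : ZMod f, ∑ b' : ZMod f, (S b' * conj (S b)) *
            ∑ χ : DirichletCharacter ℂ f, (conj (χ b) * χ b') := by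
          rw [Finset.sum_comm]
          refine Finset.sum_congr rfl fun b _ => ?_
          rw [Finset.sum_comm]
          refine Finset.sum_congr rfl fun b' _ => ?_
          rw [Finset.mul_sum]
      _ = (f.totient : ℂ) * ∑ b : ZMod f, if IsUnit b then S b * conj (S b) else 0 := by
          rw [Finset.mul_sum]
          refine Finset.sum_congr rfl fun b _ => ?_
          by_cases hb : IsUnit b
          · rw [if_pos hb]
            have h1 : ∀ b' : ZMod f, ∑ χ : DirichletCharacter ℂ f, (conj (χ b) * χ b') =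
                if b = b' then (f.totient : ℂ) else 0 := by
              intro b'
              rw [← DirichletCharacter.sum_char_inv_mul_char_eq (R := ℂ) hb b']
              exact Finset.sum_congr rfl fun χ _ => by rw [star_char_unit χ hb]
            simp only [h1]
            rw [Finset.sum_eq_single b]
            · rw [if_pos rfl]
              ring
            · intro b' _ hb'
              rw [if_neg hb'.symm, mul_zero]
            · intro h
              exact absurd (Finset.mem_univ _) h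
          · rw [if_neg hb, mul_zero]
            refine Finset.sum_eq_zero fun b' _ => ?_
            rw [Finset.sum_eq_zero, mul_zero]
            intro χ _
            rw [MulChar.map_nonunit χ hb, map_zero, zero_mul]
  have e1 : ∀ z : ℂ, z * conj z = ((‖z‖ ^ 2 : ℝ) : ℂ) := by
    intro z
    rw [Complex.mul_conj']
    push_cast
    rfl
  have e2 : ∀ b : ZMod f, (if IsUnit b then ((‖S b‖ ^ 2 : ℝ) : ℂ) else 0) =
      ((if IsUnit b then ‖S b‖ ^ 2 else 0 : ℝ) : ℂ) := by
    intro b
    split_ifs <;> simp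
  simp only [e1, e2] at key
  exact_mod_cast key

/-- the Gauss sum relation -/
theorem char_mul_gauss {f : ℕ} [NeZero f] {ψ : DirichletCharacter ℂ f} (hψ : ψ.IsPrimitive)
    (a : ZMod f) :
    ψ a * gaussSum ψ⁻¹ ZMod.stdAddChar = ∑ b : ZMod f, ψ⁻¹ b * ZMod.stdAddChar (a * b) := by
  have h1 : DirichletCharacter.IsPrimitive ψ⁻¹ := by
    rw [DirichletCharacter.isPrimitive_def, DirichletCharacter.conductor_inv]
    exact hψ
  have h2 := gaussSum_mulShift_of_isPrimitive (e := ZMod.stdAddChar) h1 a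
  rw [inv_inv] at h2
  rw [← h2]
  rfl

theorem norm_gauss_sq {f : ℕ} [NeZero f] {ψ : DirichletCharacter ℂ f} (hψ : ψ.IsPrimitive) :
    ‖gaussSum ψ⁻¹ ZMod.stdAddChar‖ ^ 2 = (f : ℝ) := by
  have h1 := add_parseval f (fun b => ψ⁻¹ b)
  have h2 : ∀ k : ZMod f, ‖∑ b : ZMod f, ψ⁻¹ b * ZMod.stdAddChar (k * b)‖ ^ 2 =
      ‖ψ k‖ ^ 2 * ‖gaussSum ψ⁻¹ ZMod.stdAddChar‖ ^ 2 := by
    intro k
    rw [← char_mul_gauss hψ, norm_mul, mul_pow]
  simp only [h2, norm_inv_char] at h1
  rw [← Finset.sum_mul, mul_comm] at h1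
  have hpos : 0 < ∑ b : ZMod f, ‖ψ b‖ ^ 2 := by
    refine Finset.sum_pos' (fun b _ => by positivity) ⟨1, Finset.mem_univ _, ?_⟩
    rw [map_one]
    norm_num
  exact mul_right_cancel₀ hpos.ne' h1

/-- ER-1 -/
theorem prim_le_additive (f : ℕ) (hf : 1 ≤ f) (K : Finset ℕ) (c : ℕ → ℂ) :
    ((f : ℝ) / f.totient) * ∑ ψ ∈ prim f, ‖∑ k ∈ K, c k * ψ (k : ZMod f)‖ ^ 2 ≤
      ∑ a ∈ (range f).filter (fun a => Nat.Coprime a f),
        ‖∑ k ∈ K, c k * Helper10.ee ((k : ℝ) * ((a : ℝ) / f))‖ ^ 2 := by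
  classical
  have : NeZero f := ⟨by omega⟩
  set S : ZMod f → ℂ := fun b => ∑ k ∈ K, c k * ZMod.stdAddChar ((k : ZMod f) * b) with hS
  have hfpos : (0 : ℝ) < f := by exact_mod_cast hf
  have htot : (0 : ℝ) < f.totient := by exact_mod_cast Nat.totient_pos.2 hf
  have h1 : ∀ ψ ∈ prim f, (f : ℝ) * ‖∑ k ∈ K, c k * ψ (k : ZMod f)‖ ^ 2 =
      ‖∑ b : ZMod f, ψ⁻¹ b * S b‖ ^ 2 := by
    intro ψ hψ
    have hp := mem_prim.1 hψ
    rw [← norm_gauss_sq hp, ← mul_pow, ← norm_mul]
    congr 2
    rw [Finset.mul_sum]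
    have : ∀ k ∈ K, gaussSum ψ⁻¹ ZMod.stdAddChar * (c k * ψ (k : ZMod f)) =
        ∑ b : ZMod f, ψ⁻¹ b * (c k * ZMod.stdAddChar ((k : ZMod f) * b)) := by
      intro k _
      calc gaussSum ψ⁻¹ ZMod.stdAddChar * (c k * ψ (k : ZMod f)) =
          c k * (ψ (k : ZMod f) * gaussSum ψ⁻¹ ZMod.stdAddChar) := by ring
        _ = _ := by
          rw [char_mul_gauss hp, Finset.mul_sum]
          exact Finset.sum_congr rfl fun b _ => by ring
    rw [Finset.sum_congr rfl this, Finset.sum_comm]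
    refine Finset.sum_congr rfl fun b _ => ?_
    rw [hS, Finset.mul_sum]
  have h2 : (f : ℝ) * ∑ ψ ∈ prim f, ‖∑ k ∈ K, c k * ψ (k : ZMod f)‖ ^ 2 ≤
      f.totient * ∑ b : ZMod f, if IsUnit b then ‖S b‖ ^ 2 else 0 := by
    rw [← mul_parseval f S, Finset.mul_sum, Finset.sum_congr rfl h1]
    calc ∑ ψ ∈ prim f, ‖∑ b : ZMod f, ψ⁻¹ b * S b‖ ^ 2
        ≤ ∑ ψ : DirichletCharacter ℂ f, ‖∑ b : ZMod f, ψ⁻¹ b * S b‖ ^ 2 :=
          Finset.sum_le_univ_sum_of_nonneg fun ψ => by positivity
      _ = ∑ ψ : DirichletCharacter ℂ f, ‖∑ b : ZMod f, ψ b * S b‖ ^ 2 :=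
          Equiv.sum_comp (Equiv.inv (DirichletCharacter ℂ f))
            (fun ψ => ‖∑ b : ZMod f, ψ b * S b‖ ^ 2)
  have h3 : ∑ b : ZMod f, (if IsUnit b then ‖S b‖ ^ 2 else 0) =
      ∑ a ∈ (range f).filter (fun a => Nat.Coprime a f),
        ‖∑ k ∈ K, c k * Helper10.ee ((k : ℝ) * ((a : ℝ) / f))‖ ^ 2 := by
    rw [← Finset.sum_filter]
    symm
    refine Finset.sum_bij (fun (a : ℕ) _ => (a : ZMod f)) ?_ ?_ ?_ ?_
    · intro a ha
      rw [Finset.mem_filter] at ha ⊢
      exact ⟨Finset.mem_univ _, (ZMod.isUnit_iff_coprime a f).2 ha.2⟩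
    · intro a ha b hb hab
      rw [Finset.mem_filter, Finset.mem_range] at ha hb
      have := (ZMod.natCast_eq_natCast_iff' a b f).1 hab
      rwa [Nat.mod_eq_of_lt ha.1, Nat.mod_eq_of_lt hb.1] at this
    · intro b hb
      rw [Finset.mem_filter] at hb
      refine ⟨b.val, ?_, ZMod.natCast_zmod_val b⟩
      rw [Finset.mem_filter, Finset.mem_range]
      refine ⟨ZMod.val_lt b, ?_⟩
      rw [← ZMod.isUnit_iff_coprime, ZMod.natCast_zmod_val]
      exact hb.2
    · intro a _
      have h5 : ∑ k ∈ K, c k * Helper10.ee ((k : ℝ) * ((a : ℝ) / f)) = S (a : ZMod f) := by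
        rw [hS]
        refine Finset.sum_congr rfl fun k _ => ?_
        congr 1
        have h4 := ZMod.stdAddChar_coe (N := f) ((k : ℤ) * (a : ℤ))
        push_cast at h4
        rw [h4]
        unfold Helper10.ee
        congr 1
        push_cast
        ring
      rw [h5]
  rw [h3] at h2
  rw [div_mul_eq_mul_div, div_le_iff₀ htot, mul_comm _ (f.totient : ℝ)]
  exact h2

end Pool.Agent.Helper6.ER
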